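import Pool.Agent.Lib.MP_b5021c_nt.IfaceE5

/-! Board b5, row E5_NB5: the zero after a load of type B, fine expansion. -/

namespace Pool.Agent.B5.H97

open Complex

/-- real estimate: norm of `θ - a + P/θ`. -/
theorem nb5_norm (θ w x y p q : ℝ) (hθ : 1000000 ≤ θ) (hw : θ * w = 1)
    (hx : |x| ≤ 12 / 10) (hy : |y| ≤ 12 / 10) (hp : |p| ≤ 12 / 10) (hq : |q| ≤ 12 / 10) :
    (θ - x + p * w) ^ 2 + (-y + q * w) ^ 2 ≤ (θ - x + p * w + y ^ 2 / 2 * w + 4 * w ^ 2) ^ 2 := by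
  have hθ0 : 0 < θ := by linarith
  have hw0 : 0 < w := by
    by_contra h
    push Not at h
    nlinarith
  have hw1 : w ≤ 1 / 1000000 := by
    by_contra h
    push Not at h
    nlinarith
  rw [abs_le] at hx hy hp hq
  have hpw : -(2 / 1000000) ≤ p * w := by nlinarith
  have hX : θ - 25 / 10 ≤ θ - x + p * w := by linarith [hx.2]
  have hy2 : y ^ 2 ≤ 144 / 100 := by nlinarith
  have hY : (-y + q * w) ^ 2 ≤ y ^ 2 + 3 * w := by
    have h1 : -(y * q) ≤ 144 / 100 := by nlinarith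
    have h2 : q ^ 2 ≤ 144 / 100 := by nlinarith
    have h3 : q ^ 2 * w ^ 2 ≤ 144 / 100 * w ^ 2 := mul_le_mul_of_nonneg_right h2 (sq_nonneg w)
    have h4 : 144 / 100 * w ^ 2 ≤ 1 / 100 * w := by nlinarith
    have h5 : -(y * q) * w ≤ 144 / 100 * w := mul_le_mul_of_nonneg_right h1 hw0.le
    nlinarith
  set X := θ - x + p * w with hXd
  have hX0 : 0 ≤ X := by linarith
  have hd0 : 0 ≤ y ^ 2 / 2 * w + 4 * w ^ 2 := by positivity
  have hB : X ^ 2 + 2 * X * (y ^ 2 / 2 * w + 4 * w ^ 2) ≤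
      (X + (y ^ 2 / 2 * w + 4 * w ^ 2)) ^ 2 := by nlinarith [sq_nonneg (y ^ 2 / 2 * w + 4 * w ^ 2)]
  have hk : y ^ 2 + 3 * w ≤ 2 * X * (y ^ 2 / 2 * w + 4 * w ^ 2) := by
    have h1 : 2 * (θ - 25 / 10) * (y ^ 2 / 2 * w + 4 * w ^ 2) ≤
        2 * X * (y ^ 2 / 2 * w + 4 * w ^ 2) :=
      mul_le_mul_of_nonneg_right (by linarith) hd0
    have h2 : 2 * (θ - 25 / 10) * (y ^ 2 / 2 * w + 4 * w ^ 2) =
        (θ * w) * y ^ 2 + 8 * (θ * w) * w - 25 / 10 * y ^ 2 * w - 20 * w ^ 2 := by ring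
    rw [hw] at h2
    have h3 : 25 / 10 * y ^ 2 * w ≤ 36 / 10 * w := by
      have := mul_le_mul_of_nonneg_right hy2 hw0.le
      linarith
    have h4 : 20 * w ^ 2 ≤ 1 / 10 * w := by nlinarith
    linarith
  have e : θ - x + p * w + y ^ 2 / 2 * w + 4 * w ^ 2 = X + (y ^ 2 / 2 * w + 4 * w ^ 2) := by
    rw [hXd]; ring
  rw [e]
  linarith

theorem nb5 : Nb5S := by
  intro T T' c h h0 x y hT hT' hh hh0 hhh hc heq hxy
  have hθ0 : 0 < ‖T‖ := by linarith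
  have ht0 : 0 < ‖T'‖ := by linarith
  have hTne : T ≠ 0 := norm_pos_iff.mp hθ0
  have h1 : ‖T'‖ - 3 ≤ ‖T' + h‖ := by
    have := norm_sub_le_norm_add T' h
    linarith
  have h2 : ‖T - T'‖ * ‖T' + h‖ = ‖c‖ * ‖T'‖ := by rw [← norm_mul, heq, norm_mul]
  have h3 : ‖T - T'‖ ≤ 1201 / 1000 := by
    by_contra hlt
    push Not at hlt
    have a1 : 1201 / 1000 * (‖T'‖ - 3) < ‖T - T'‖ * ‖T' + h‖ := by
      have : 0 < ‖T'‖ - 3 := by linarith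
      calc 1201 / 1000 * (‖T'‖ - 3) < ‖T - T'‖ * (‖T'‖ - 3) := mul_lt_mul_of_pos_right hlt this
        _ ≤ _ := mul_le_mul_of_nonneg_left h1 (norm_nonneg _)
    have a2 : ‖c‖ * ‖T'‖ ≤ 12 / 10 * ‖T'‖ := mul_le_mul_of_nonneg_right hc ht0.le
    linarith
  have h4 : ‖T‖ - 1201 / 1000 ≤ ‖T'‖ := by
    have := norm_sub_norm_le T T'
    linarith
  -- the error term
  obtain ⟨E, hEd⟩ : ∃ E, E = T' - (T - c + c * h0 / T) := ⟨_, rfl⟩
  have hE : E * (T * (T' + h)) = c * ((h - h0) * T + h0 * (T - T' - h)) := by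
    rw [hEd]
    field_simp
    linear_combination (-T) * heq
  have hE1 : ‖E‖ * (‖T‖ * (‖T'‖ - 3)) ≤ 12 / 10 * (7 / ‖T'‖ * ‖T‖ + 4201 / 1000) := by
    have a1 : ‖E‖ * (‖T‖ * (‖T'‖ - 3)) ≤ ‖E‖ * (‖T‖ * ‖T' + h‖) :=
      mul_le_mul_of_nonneg_left (mul_le_mul_of_nonneg_left h1 hθ0.le) (norm_nonneg _)
    have a2 : ‖E‖ * (‖T‖ * ‖T' + h‖) = ‖c * ((h - h0) * T + h0 * (T - T' - h))‖ := by
      rw [← hE, norm_mul, norm_mul]
    have a3 : ‖T - T' - h‖ ≤ 4201 / 1000 := by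
      have := norm_sub_le (T - T') h
      linarith
    have a4 : ‖(h - h0) * T + h0 * (T - T' - h)‖ ≤ 7 / ‖T'‖ * ‖T‖ + 4201 / 1000 := by
      refine le_trans (norm_add_le _ _) ?_
      rw [norm_mul, norm_mul]
      have b1 : ‖h - h0‖ * ‖T‖ ≤ 7 / ‖T'‖ * ‖T‖ := mul_le_mul_of_nonneg_right hhh hθ0.le
      have b2 : ‖h0‖ * ‖T - T' - h‖ ≤ 1 * (4201 / 1000) :=
        mul_le_mul hh0 a3 (norm_nonneg _) (by norm_num)
      linarith
    have a5 : ‖c * ((h - h0) * T + h0 * (T - T' - h))‖ ≤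
        12 / 10 * (7 / ‖T'‖ * ‖T‖ + 4201 / 1000) := by
      rw [norm_mul]
      exact mul_le_mul hc a4 (norm_nonneg _) (by norm_num)
    linarith
  obtain ⟨w, hwd⟩ : ∃ w, w = 1 / ‖T‖ := ⟨_, rfl⟩
  have hw : ‖T‖ * w = 1 := by rw [hwd]; field_simp
  have hw0 : 0 < w := by rw [hwd]; positivity
  have hw1 : w ≤ 1 / 1000000 := by
    rw [hwd]; exact one_div_le_one_div_of_le (by norm_num) hT
  have hE2 : ‖E‖ ≤ 14 * w ^ 2 := by
    have b1 : 7 / ‖T'‖ * ‖T‖ ≤ 7001 / 1000 := by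
      rw [div_mul_eq_mul_div, div_le_iff₀ ht0]
      linarith
    have b2 : ‖E‖ * (‖T‖ * (‖T'‖ - 3)) ≤ 1345 / 100 := by linarith
    have b3 : ‖T‖ * (‖T‖ - 5) ≤ ‖T‖ * (‖T'‖ - 3) :=
      mul_le_mul_of_nonneg_left (by linarith) hθ0.le
    have b4 : ‖E‖ * (‖T‖ * (‖T‖ - 5)) ≤ 1345 / 100 :=
      le_trans (mul_le_mul_of_nonneg_left b3 (norm_nonneg _)) b2
    have b5 : 99 / 100 * ‖T‖ ≤ ‖T‖ - 5 := by linarith
    have b6 : ‖E‖ * (‖T‖ * (99 / 100 * ‖T‖)) ≤ 1345 / 100 :=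
      le_trans (mul_le_mul_of_nonneg_left (mul_le_mul_of_nonneg_left b5 hθ0.le) (norm_nonneg _)) b4
    have b7 : ‖E‖ * ‖T‖ ^ 2 ≤ 14 := by
      have : ‖E‖ * (‖T‖ * (99 / 100 * ‖T‖)) = 99 / 100 * (‖E‖ * ‖T‖ ^ 2) := by ring
      rw [this] at b6
      linarith
    have b8 : ‖E‖ = ‖E‖ * ‖T‖ ^ 2 * w ^ 2 := by
      have : ‖E‖ * ‖T‖ ^ 2 * w ^ 2 = ‖E‖ * (‖T‖ * w) ^ 2 := by ring
      rw [this, hw]; ring
    rw [b8]
    exact mul_le_mul_of_nonneg_right b7 (sq_nonneg w)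
  -- rotate
  obtain ⟨u, hud⟩ : ∃ u : ℂ, u = (starRingEnd ℂ) T * (w : ℂ) := ⟨_, rfl⟩
  have hwn : ‖(w : ℂ)‖ = w := by rw [Complex.norm_real, Real.norm_of_nonneg hw0.le]
  have hu : ‖u‖ = 1 := by
    rw [hud, norm_mul, RCLike.norm_conj, hwn, hw]
  have hwc : (‖T‖ : ℂ) * (w : ℂ) = 1 := by exact_mod_cast hw
  have hTT : T * (starRingEnd ℂ) T = (‖T‖ : ℂ) ^ 2 := by
    rw [Complex.mul_conj, Complex.normSq_eq_norm_sq]; push_cast; ring
  have hTu : T * u = (‖T‖ : ℂ) := by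
    rw [hud]
    linear_combination (w : ℂ) * hTT + (‖T‖ : ℂ) * hwc
  have hcu : c * u = (x : ℂ) + (y : ℂ) * I := by
    rw [hud]
    linear_combination (w : ℂ) * hxy + ((x : ℂ) + (y : ℂ) * I) * hwc
  obtain ⟨P, hPd⟩ : ∃ P : ℂ, P = (c * u) * (h0 * u) := ⟨_, rfl⟩
  have hcn : ‖c * u‖ = ‖c‖ := by rw [norm_mul, hu, mul_one]
  have hP : ‖P‖ ≤ 12 / 10 := by
    rw [hPd, norm_mul, hcn, norm_mul, hu, mul_one]
    calc ‖c‖ * ‖h0‖ ≤ 12 / 10 * 1 := mul_le_mul hc hh0 (norm_nonneg _) (by norm_num)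
      _ = _ := by norm_num
  have hZ : (T - c + c * h0 / T) * u = (‖T‖ : ℂ) - ((x : ℂ) + (y : ℂ) * I) + P * (w : ℂ) := by
    have e1 : c * h0 / T * u = P * (w : ℂ) := by
      rw [hPd, div_mul_eq_mul_div, div_eq_iff hTne]
      linear_combination (-(c * h0 * u * (w : ℂ))) * hTu - c * h0 * u * hwc
    calc (T - c + c * h0 / T) * u = T * u - c * u + c * h0 / T * u := by ring
      _ = _ := by rw [hTu, hcu, e1]
  have hZn : ‖T - c + c * h0 / T‖ = ‖(‖T‖ : ℂ) - ((x : ℂ) + (y : ℂ) * I) + P * (w : ℂ)‖ := by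
    rw [← hZ, norm_mul, hu, mul_one]
  have hxy2 : x ^ 2 + y ^ 2 = ‖c‖ ^ 2 := by
    have : ‖c * u‖ ^ 2 = x ^ 2 + y ^ 2 := by
      rw [hcu, ← Complex.normSq_eq_norm_sq, Complex.normSq_apply]
      simp
      ring
    rw [← this, hcn]
  have hc2 : ‖c‖ ^ 2 ≤ 144 / 100 := by nlinarith [norm_nonneg c]
  have hc2' : ‖c‖ ^ 2 ≤ (12 / 10 : ℝ) ^ 2 := by linarith
  have hx : |x| ≤ 12 / 10 := by
    apply abs_le_of_sq_le_sq _ (by norm_num)
    linarith [sq_nonneg y]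
  have hy : |y| ≤ 12 / 10 := by
    apply abs_le_of_sq_le_sq _ (by norm_num)
    linarith [sq_nonneg x]
  have hp : |P.re| ≤ 12 / 10 := le_trans (Complex.abs_re_le_norm P) hP
  have hq : |P.im| ≤ 12 / 10 := le_trans (Complex.abs_im_le_norm P) hP
  have hmain := nb5_norm ‖T‖ w x y P.re P.im hT hw hx hy hp hq
  have hsq : ‖T - c + c * h0 / T‖ ^ 2 = (‖T‖ - x + P.re * w) ^ 2 + (-y + P.im * w) ^ 2 := by
    rw [hZn, ← Complex.normSq_eq_norm_sq, Complex.normSq_apply]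
    simp
    ring
  have hx' := (abs_le.mp hx).2
  have hp' := (abs_le.mp hp).1
  have hpw : -(2 / 1000000) ≤ P.re * w := by
    have := mul_le_mul_of_nonneg_right hp' hw0.le
    linarith
  have hB0 : 0 ≤ ‖T‖ - x + P.re * w + y ^ 2 / 2 * w + 4 * w ^ 2 := by
    have : 0 ≤ y ^ 2 / 2 * w + 4 * w ^ 2 := by positivity
    linarith
  have hZB : ‖T - c + c * h0 / T‖ ≤ ‖T‖ - x + P.re * w + y ^ 2 / 2 * w + 4 * w ^ 2 := by
    apply le_of_sq_le_sq _ hB0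
    rw [hsq]
    exact hmain
  have hT'B : ‖T'‖ ≤ ‖T‖ - x + (P.re + y ^ 2 / 2) * w + 18 * w ^ 2 := by
    have : T' = E + (T - c + c * h0 / T) := by rw [hEd]; ring
    have h5 : ‖T'‖ ≤ ‖E‖ + ‖T - c + c * h0 / T‖ := by
      conv_lhs => rw [this]
      exact norm_add_le _ _
    linarith
  have hw2 : w ^ 2 = 1 / ‖T‖ ^ 2 := by rw [hwd]; ring
  constructor
  · have e1 : 2 / ‖T‖ = 2 * w := by rw [hwd]; ring
    rw [e1]
    clear hmain hsq hZn hZ hE hE1 hE2 hcu hTu hTT hwc hxy heq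
    have hp2 := (abs_le.mp hp).2
    have hy2 : y ^ 2 ≤ 144 / 100 := by linarith [sq_nonneg x]
    have e2 : (P.re + y ^ 2 / 2) * w ≤ (192 / 100) * w :=
      mul_le_mul_of_nonneg_right (by linarith) hw0.le
    have e3 : 18 * w ^ 2 ≤ 8 / 100 * w := by
      have := mul_le_mul_of_nonneg_left hw1 hw0.le
      linarith [pow_two w]
    linarith
  · intro hk
    have e1 : (‖c‖ * (1 - ‖c‖) + 5 / 2 * y ^ 2) / ‖T‖ = (‖c‖ * (1 - ‖c‖) + 5 / 2 * y ^ 2) * w := by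
      rw [hwd]; ring
    have e2 : 100 / ‖T‖ ^ 2 = 100 * w ^ 2 := by rw [hw2]; ring
    rw [e1, e2]
    have hκ : ‖c * u + h0 * u‖ = 1 := by
      rw [← add_mul, norm_mul, hu, hk, mul_one]
    have hre : P.re ≤ ‖c‖ - (x ^ 2 - y ^ 2) := by
      have f1 : P = (c * u) * (c * u + h0 * u) - (c * u) ^ 2 := by rw [hPd]; ring
      have f2 : ((c * u) * (c * u + h0 * u)).re ≤ ‖c‖ := by
        refine le_trans (Complex.re_le_norm _) ?_
        rw [norm_mul, hκ, hcn, mul_one]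
      have f3 : ((c * u) ^ 2).re = x ^ 2 - y ^ 2 := by
        rw [hcu, pow_two]
        simp
        ring
      rw [f1, Complex.sub_re, f3]
      linarith
    have f4 : P.re + y ^ 2 / 2 ≤ ‖c‖ * (1 - ‖c‖) + 5 / 2 * y ^ 2 := by
      have : ‖c‖ * (1 - ‖c‖) = ‖c‖ - ‖c‖ ^ 2 := by ring
      rw [this, ← hxy2]
      linarith
    have f5 := mul_le_mul_of_nonneg_right f4 hw0.le
    have f6 : 18 * w ^ 2 ≤ 100 * w ^ 2 := by linarith [sq_nonneg w]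
    linarith

end Pool.Agent.B5.H97
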